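import Pool.Agent.Q161.ESJ.Stm1

/-!
# Project ESJ (helper161): embeddings and roots (helper211; adapted from `Pool/Agent/Q151/ESG/Base.lean`)
-/

set_option autoImplicit false
set_option linter.all false

namespace Pool.Agent.Q211.ESJ

open Polynomial NumberField
open Pool.Agent.Q161.ESJ
open Pool.Agent.Y723.HJ (CR OddM HF nm cl val del)

section

variable {F : Type} [Field F] (H : HP F)

theorem pol_monic (E : Type) [Field E] [Algebra F E] : (pol H E).Monic := H.monic.map _

theorem pol_ne (E : Type) [Field E] [Algebra F E] : pol H E ≠ 0 := (pol_monic H E).ne_zero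

end

section
variable {F : Type} [Field F] {H : HP F} {L : Type} [Field L] [Algebra F L] {θ : L} (hS : SetF H L θ)

include hS

theorem fin_dim : FiniteDimensional F L :=
  Module.finite_of_finrank_pos (by rw [hS.deg]; exact H.odd.pos)

theorem theta_int : IsIntegral F θ := ⟨H.pol, H.monic, hS.root⟩

theorem minpoly_eq : minpoly F θ = H.pol :=
  (minpoly.eq_of_irreducible_of_monic hS.irr hS.root H.monic).symm

theorem pol_sep [CharZero F] (E : Type) [Field E] [Algebra F E] : (pol H E).Separable :=
  hS.irr.separable.map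

theorem hf_pol [CharZero F] (E : Type) [Field E] [Algebra F E] : HF (pol H E) where
  monic := pol_monic _ _
  odd := by
    unfold pol
    rw [H.monic.natDegree_map]
    exact H.odd
  sep := pol_sep hS E
  two := by
    haveI : CharZero E := charZero_of_injective_algebraMap (algebraMap F E).injective
    exact two_ne_zero

theorem theta_top : Algebra.adjoin F {θ} = ⊤ := by
  haveI := fin_dim hS
  have h1 : IsIntegral F θ := theta_int hS
  have h2 : IntermediateField.adjoin F {θ} = ⊤ := by
    apply IntermediateField.eq_of_le_of_finrank_eq le_top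
    rw [IntermediateField.adjoin.finrank h1, minpoly_eq hS, IntermediateField.finrank_top',
      hS.deg]
  have h3 := IntermediateField.adjoin_simple_toSubalgebra_of_isAlgebraic (h1.isAlgebraic)
  rw [h2] at h3
  exact h3.symm

theorem theta_surj (x : L) : ∃ d : F[X], aeval θ d = x := by
  have h : x ∈ Algebra.adjoin F {θ} := by rw [theta_top hS]; trivial
  rw [Algebra.adjoin_singleton_eq_range_aeval] at h
  exact h

theorem emb_ext {E : Type} [Field E] [Algebra F E] {e e' : L →ₐ[F] E} (h : e θ = e' θ) :
    e = e' := by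
  apply AlgHom.ext
  intro x
  obtain ⟨d, hd⟩ := theta_surj hS x
  rw [← hd, ← Polynomial.aeval_algHom_apply, ← Polynomial.aeval_algHom_apply, h]

theorem emb_root {E : Type} [Field E] [Algebra F E] (e : L →ₐ[F] E) :
    e θ ∈ (pol H E).roots := by
  rw [mem_roots (pol_ne _ _), IsRoot]
  unfold pol
  rw [← eval₂_eq_eval_map, ← aeval_def, Polynomial.aeval_algHom_apply, hS.root, map_zero]

theorem exists_emb {E : Type} [Field E] [Algebra F E] {x : E}
    (hx : x ∈ (pol H E).roots) : ∃ e : L →ₐ[F] E, e θ = x := by
  have h1 : aeval x (minpoly F θ) = 0 := by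
    rw [minpoly_eq hS]
    rw [mem_roots (pol_ne _ _), IsRoot] at hx
    unfold pol at hx
    rw [aeval_def, eval₂_eq_eval_map]
    exact hx
  have h2 : IsIntegral F θ := theta_int hS
  obtain ⟨pb, hpb⟩ : ∃ pb : PowerBasis F L, pb.gen = θ := by
    refine ⟨PowerBasis.ofAdjoinEqTop h2 (theta_top hS), PowerBasis.ofAdjoinEqTop_gen _ _⟩
  subst hpb
  exact ⟨pb.lift x h1, pb.lift_gen x h1⟩

/-- the roots are the `e(θ)` -/
theorem mem_roots_iff {E : Type} [Field E] [Algebra F E] (x : E) :
    x ∈ (pol H E).roots ↔ ∃ e : L →ₐ[F] E, e θ = x :=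
  ⟨fun h => exists_emb hS h, fun ⟨e, he⟩ => he ▸ emb_root hS e⟩

theorem emb_inj {E : Type} [Field E] [Algebra F E] :
    Function.Injective (fun e : L →ₐ[F] E => e θ) := fun _ _ h => emb_ext hS h

theorem roots_toFinset {E : Type} [Field E] [DecidableEq E] [Algebra F E] [Fintype (L →ₐ[F] E)] :
    (pol H E).roots.toFinset = Finset.univ.image (fun e : L →ₐ[F] E => e θ) := by
  ext x
  rw [Multiset.mem_toFinset, mem_roots_iff hS]
  simp

end

end Pool.Agent.Q211.ESJ
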